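import Pool.Agent.H.MP_ceb9a9.MainThm

/-!
# Removing a closed countable set from a complex manifold and the Oka property

If `X` is a complex manifold, `D ⊆ X` is closed and countable and the open submanifold `X \ D` is
Oka (convex approximation property), then `X` is Oka. The case of one point rests on the library
behind the proof of the frozen statement `S06199` (`Pool/Agent/H/MP_ceb9a9`); the passage to closed
countable sets is a minimality (Zorn) argument with the Baire category theorem.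
-/

set_option autoImplicit false

open scoped Manifold Topology
open TopologicalSpace Filter Set

namespace Pool.Agent.Results.MP_ceb9a9_an.CountableRemoval

/-- The convex approximation property: `Y` is Oka. For every `n`, every compact convex
`K ⊂ ℂⁿ` and every holomorphic map `f` from an open neighbourhood `U` of `K` into `Y` there are
holomorphic maps `F j : ℂⁿ → Y` with `F j → f` uniformly on `K` (convergence in `C(K, Y)`). -/
def IsOka (m : ℕ) (Y : Type) [TopologicalSpace Y] [ChartedSpace (Fin m → ℂ) Y] : Prop :=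
  ∀ (n : ℕ) (K U : Set (Fin n → ℂ)), IsCompact K → Convex ℝ K → IsOpen U → K ⊆ U →
    ∀ f : (Fin n → ℂ) → Y, MDifferentiableOn 𝓘(ℂ, Fin n → ℂ) 𝓘(ℂ, Fin m → ℂ) f U →
      ∃ (c : C(K, Y)) (F : ℕ → C(Fin n → ℂ, Y)), (∀ x : K, c x = f x) ∧
        (∀ j, MDifferentiable 𝓘(ℂ, Fin n → ℂ) 𝓘(ℂ, Fin m → ℂ) (F j)) ∧
        Tendsto (fun j => (F j).restrict K) atTop (𝓝 c)

/-- Convex approximation for maps avoiding `A`, with open neighbourhoods of the graph. -/
def Avoid (m : ℕ) (X : Type) [TopologicalSpace X] [ChartedSpace (Fin m → ℂ) X] (A : Set X) : Prop :=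
  ∀ (n : ℕ) (K U : Set (Fin n → ℂ)), K.Nonempty → IsCompact K → Convex ℝ K → IsOpen U → K ⊆ U →
    ∀ f : (Fin n → ℂ) → X, MDifferentiableOn 𝓘(ℂ, Fin n → ℂ) 𝓘(ℂ, Fin m → ℂ) f U →
      (∀ x ∈ U, f x ∉ A) →
      ∀ O : Set ((Fin n → ℂ) × X), IsOpen O → (∀ x ∈ K, (x, f x) ∈ O) →
        ∃ g : (Fin n → ℂ) → X, MDifferentiable 𝓘(ℂ, Fin n → ℂ) 𝓘(ℂ, Fin m → ℂ) g ∧
          (∀ x, g x ∉ A) ∧ ∀ x ∈ K, (x, g x) ∈ O

theorem mdiff_val {m n : ℕ} {X : Type} [TopologicalSpace X] [ChartedSpace (Fin m → ℂ) X]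
    (V : Opens X) (f : (Fin n → ℂ) → V) (U : Set (Fin n → ℂ)) :
    MDifferentiableOn 𝓘(ℂ, Fin n → ℂ) 𝓘(ℂ, Fin m → ℂ) (Subtype.val ∘ f) U ↔
      MDifferentiableOn 𝓘(ℂ, Fin n → ℂ) 𝓘(ℂ, Fin m → ℂ) f U := by
  unfold MDifferentiableOn MDifferentiableWithinAt
  refine forall_congr' fun x => forall_congr' fun _ => ?_
  exact ChartedSpace.liftPropWithinAt_subtypeVal_comp_iff f U x

/-- nonempty-valued maps: `IsOka` implies the graph form -/
theorem avoid_of_isOka {m : ℕ} {X : Type} [TopologicalSpace X] [ChartedSpace (Fin m → ℂ) X]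
    (h : IsOka m X) : Avoid m X ∅ := by
  intro n K U _ hK hKc hU hKU f hf _ O hO hKO
  obtain ⟨c, F, hc, hF, hlim⟩ := h n K U hK hKc hU hKU f hf
  have : CompactSpace K := isCompact_iff_compactSpace.1 hK
  have hopen : IsOpen {c' : C(K, X) | ∀ x : K, ((x : Fin n → ℂ), c' x) ∈ O} := by
    have h1 : Continuous fun c' : C(K, X) =>
        (ContinuousMap.prodMk (⟨Subtype.val, continuous_subtype_val⟩ : C(K, Fin n → ℂ)) c') := by
      apply ContinuousMap.continuous_of_continuous_uncurry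
      have h0 : Continuous fun q : C(K, X) × K => ((q.2 : Fin n → ℂ), q.1 q.2) := by fun_prop
      exact h0
    have h2 : IsOpen {b : C(K, (Fin n → ℂ) × X) | MapsTo b univ O} :=
      ContinuousMap.isOpen_setOfPred_mapsTo isCompact_univ hO
    have h3 := h2.preimage h1
    convert h3 using 1
    ext c'
    simp [MapsTo]
  have hmem : c ∈ {c' : C(K, X) | ∀ x : K, ((x : Fin n → ℂ), c' x) ∈ O} := by
    intro x
    rw [hc x]
    exact hKO x x.2
  obtain ⟨j, hj⟩ := (hlim.eventually (hopen.mem_nhds hmem)).exists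
  refine ⟨F j, hF j, fun x => by simp, fun x hx => ?_⟩
  exact hj ⟨x, hx⟩

theorem isOka_of_avoid {m : ℕ} {X : Type} [TopologicalSpace X] [T2Space X]
    [SecondCountableTopology X] [ChartedSpace (Fin m → ℂ) X] 
    (h : Avoid m X ∅) : IsOka m X := by
  have hlc : LocallyCompactSpace X := Manifold.locallyCompact_of_finiteDimensional 𝓘(ℂ, Fin m → ℂ)
  have hmz : MetrizableSpace X := metrizableSpace_of_t3_secondCountable X
  let _ : MetricSpace X := metrizableSpaceMetric X
  intro n K U hK hKc hU hKU f hf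
  have : CompactSpace K := isCompact_iff_compactSpace.1 hK
  have hfc : ContinuousOn f U := hf.continuousOn
  have key : ∀ j : ℕ, ∃ g : (Fin n → ℂ) → X,
      MDifferentiable 𝓘(ℂ, Fin n → ℂ) 𝓘(ℂ, Fin m → ℂ) g ∧
        ∀ x ∈ K, dist (g x) (f x) < 1 / ((j : ℝ) + 1) := by
    intro j
    have hε : (0 : ℝ) < 1 / ((j : ℝ) + 1) := by positivity
    rcases K.eq_empty_or_nonempty with hKe | hKne
    · refine ⟨fun _ => f 0, mdifferentiable_const, fun x hx => ?_⟩
      rw [hKe] at hx
      exact absurd hx (by simp)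
    obtain ⟨g, hg, _, hgO⟩ := h n K U hKne hK hKc hU hKU f hf (fun x _ => by simp)
      ((U ×ˢ univ) ∩ (fun q : (Fin n → ℂ) × X => dist q.2 (f q.1)) ⁻¹' Iio (1 / ((j : ℝ) + 1)))
      (by
        refine ContinuousOn.isOpen_inter_preimage ?_ (hU.prod isOpen_univ) isOpen_Iio
        refine continuous_dist.comp_continuousOn (ContinuousOn.prodMk continuousOn_snd ?_)
        exact hfc.comp continuousOn_fst (fun q hq => hq.1))
      (fun x hx => ⟨⟨hKU hx, trivial⟩, by simpa using hε⟩)
    exact ⟨g, hg, fun x hx => (hgO x hx).2⟩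
  choose G hG using key
  let c : C(K, X) := ⟨K.domRestrict f, continuousOn_iff_continuous_domRestrict.1 (hfc.mono hKU)⟩
  refine ⟨c, fun j => ⟨G j, (hG j).1.continuous⟩, fun x => rfl, fun j => (hG j).1, ?_⟩
  rw [ContinuousMap.tendsto_iff_tendstoUniformly, Metric.tendstoUniformly_iff]
  intro ε hε
  obtain ⟨N, hN⟩ := exists_nat_one_div_lt hε
  filter_upwards [eventually_ge_atTop N] with j hj x
  rw [dist_comm]
  refine ((hG j).2 x x.2).trans (lt_of_le_of_lt ?_ hN)
  gcongr

section opens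

variable {m : ℕ} {X : Type} [TopologicalSpace X] [ChartedSpace (Fin m → ℂ) X]

/-- from `X` to an open submanifold -/
theorem avoid_sub (V : Opens X) (A : Set V)
    (h : Avoid m X ((V : Set X)ᶜ ∪ Subtype.val '' A)) : Avoid m V A := by
  intro n K U hKne hK hKc hU hKU f hf hfA O hO hKO
  have hopen : IsOpen ((fun q : (Fin n → ℂ) × V => (q.1, (q.2 : X))) '' O) := by
    have h1 : Topology.IsOpenEmbedding (Prod.map id Subtype.val : (Fin n → ℂ) × V → (Fin n → ℂ) × X) :=
      Topology.IsOpenEmbedding.id.prodMap V.isOpen.isOpenEmbedding_subtypeVal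
    exact h1.isOpenMap O hO
  obtain ⟨g, hg, hgA, hgO⟩ := h n K U hKne hK hKc hU hKU (Subtype.val ∘ f)
    ((mdiff_val V f U).2 hf) (by
      rintro x hx (hx' | ⟨y, hy, hyx⟩)
      · exact hx' (f x).2
      · have : y = f x := Subtype.ext hyx
        exact hfA x hx (this ▸ hy)) _ hopen (fun x hx => ⟨(x, f x), hKO x hx, rfl⟩)
  have hgV : ∀ x, g x ∈ V := by
    intro x
    by_contra hx
    exact hgA x (Or.inl hx)
  refine ⟨fun x => ⟨g x, hgV x⟩, ?_, fun x hx => hgA x (Or.inr ⟨_, hx, rfl⟩), fun x hx => ?_⟩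
  · have h2 : MDifferentiableOn 𝓘(ℂ, Fin n → ℂ) 𝓘(ℂ, Fin m → ℂ)
        (Subtype.val ∘ fun x => (⟨g x, hgV x⟩ : V)) univ := mdifferentiableOn_univ.2 hg
    exact mdifferentiableOn_univ.1 ((mdiff_val V _ univ).1 h2)
  · obtain ⟨q, hq, hqe⟩ := hgO x hx
    have h4 : (q.1, (q.2 : X)) = (x, g x) := hqe
    have h3 : q = (x, ⟨g x, hgV x⟩) := by
      apply Prod.ext
      · exact (Prod.ext_iff.1 h4).1
      · exact Subtype.ext (Prod.ext_iff.1 h4).2
    rwa [h3] at hq

/-- from an open submanifold to `X` -/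
theorem avoid_of_sub (V : Opens X) (A : Set V) (h : Avoid m V A) :
    Avoid m X ((V : Set X)ᶜ ∪ Subtype.val '' A) := by
  classical
  intro n K U hKne hK hKc hU hKU f hf hfA O hO hKO
  have hfV : ∀ x ∈ U, f x ∈ V := by
    intro x hx
    by_contra hx'
    exact hfA x hx (Or.inl hx')
  obtain ⟨x₀, hx₀⟩ := hKne
  set F : (Fin n → ℂ) → V := fun x =>
    if hx : f x ∈ V then ⟨f x, hx⟩ else ⟨f x₀, hfV x₀ (hKU hx₀)⟩ with hF
  have hFf : ∀ x ∈ U, (F x : X) = f x := by
    intro x hx
    simp only [hF]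
    rw [dif_pos (hfV x hx)]
  obtain ⟨g, hg, hgA, hgO⟩ := h n K U ⟨x₀, hx₀⟩ hK hKc hU hKU F
    ((mdiff_val V F U).1 (hf.congr hFf)) (by
      intro x hx hxA
      exact hfA x hx (Or.inr ⟨F x, hxA, hFf x hx⟩))
    ((fun q : (Fin n → ℂ) × V => (q.1, (q.2 : X))) ⁻¹' O)
    (hO.preimage (by fun_prop)) (fun x hx => by
      show (x, (F x : X)) ∈ O
      rw [hFf x (hKU hx)]
      exact hKO x hx)
  refine ⟨fun x => (g x : X), ?_, ?_, fun x hx => hgO x hx⟩
  · exact mdifferentiableOn_univ.1 ((mdiff_val V g univ).2 (mdifferentiableOn_univ.2 hg))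
  · rintro x (hx | ⟨y, hy, hyx⟩)
    · exact hx (g x).2
    · have : y = g x := Subtype.ext hyx
      exact hgA x (this ▸ hy)

end opens

section step

variable {m : ℕ} {X : Type} [TopologicalSpace X] [T2Space X] [SecondCountableTopology X]
  [ChartedSpace (Fin m → ℂ) X] [IsManifold 𝓘(ℂ, Fin m → ℂ) ⊤ X]

/-- one point, graph form -/
theorem main0 (p : X)
    (h : ∀ (n : ℕ) (K U : Set (Fin n → ℂ)), IsCompact K → Convex ℝ K → IsOpen U → K ⊆ U →
        ∀ f : (Fin n → ℂ) → X,
          MDifferentiableOn 𝓘(ℂ, Fin n → ℂ) 𝓘(ℂ, Fin m → ℂ) f U →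
          (∀ x ∈ U, f x ≠ p) →
          ∀ O : Set ((Fin n → ℂ) × X), IsOpen O → (∀ x ∈ K, (x, f x) ∈ O) →
            ∃ g : (Fin n → ℂ) → X,
              MDifferentiable 𝓘(ℂ, Fin n → ℂ) 𝓘(ℂ, Fin m → ℂ) g ∧
              (∀ x, g x ≠ p) ∧ ∀ x ∈ K, (x, g x) ∈ O) :
    ∀ (n : ℕ) (K U : Set (Fin n → ℂ)), IsCompact K → Convex ℝ K → IsOpen U → K ⊆ U →
        ∀ f : (Fin n → ℂ) → X,
          MDifferentiableOn 𝓘(ℂ, Fin n → ℂ) 𝓘(ℂ, Fin m → ℂ) f U →
          ∀ O : Set ((Fin n → ℂ) × X), IsOpen O → (∀ x ∈ K, (x, f x) ∈ O) →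
            ∃ g : (Fin n → ℂ) → X,
              MDifferentiable 𝓘(ℂ, Fin n → ℂ) 𝓘(ℂ, Fin m → ℂ) g ∧
              ∀ x ∈ K, (x, g x) ∈ O :=
  OkaP.frozen_of_main (fun m X _ _ _ _ p hp => OkaP.capX_of_capY m X p hp) m X p h

/-- one point -/
theorem one_point (p : X) (h : Avoid m X {p}) : Avoid m X ∅ := by
  by_cases hq : ∃ q : X, q ≠ p
  · obtain ⟨q, hq⟩ := hq
    intro n K U hKne hK hKc hU hKU f hf _ O hO hKO
    obtain ⟨g, hg, hgO⟩ := main0 p (fun n K U hK hKc hU hKU f hf hfp O hO hKO => by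
      rcases K.eq_empty_or_nonempty with hKe | hKne
      · exact ⟨fun _ => q, mdifferentiable_const, fun _ => hq, fun x hx => by
          rw [hKe] at hx
          exact absurd hx (by simp)⟩
      · obtain ⟨g, hg, hgp, hgO⟩ := h n K U hKne hK hKc hU hKU f hf
          (fun x hx => by simpa using hfp x hx) O hO hKO
        exact ⟨g, hg, fun x => by simpa using hgp x, hgO⟩) n K U hK hKc hU hKU f hf O hO hKO
    exact ⟨g, hg, fun x => by simp, hgO⟩
  · push Not at hq
    intro n K U hKne hK hKc hU hKU f hf _ O hO hKO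
    refine ⟨fun _ => p, mdifferentiable_const, fun x => by simp, fun x hx => ?_⟩
    have := hKO x hx
    rwa [hq (f x)] at this

/-- one more point -/
theorem add_point {A : Set X} (hA : IsClosed A) {p : X} (hp : p ∉ A)
    (h : Avoid m X (A ∪ {p})) : Avoid m X A := by
  let V : Opens X := ⟨Aᶜ, hA.isOpen_compl⟩
  have hV : (V : Set X)ᶜ = A := compl_compl A
  let p' : V := ⟨p, hp⟩
  have h1 : Avoid m X ((V : Set X)ᶜ ∪ Subtype.val '' ({p'} : Set V)) := by
    rw [hV, image_singleton]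
    exact h
  have h2 : Avoid m V {p'} := avoid_sub V _ h1
  have h3 : Avoid m V (∅ : Set V) := one_point p' h2
  have h4 := avoid_of_sub V _ h3
  rwa [hV, image_empty, union_empty] at h4

omit [SecondCountableTopology X] [ChartedSpace (Fin m → ℂ) X] [IsManifold 𝓘(ℂ, Fin m → ℂ) ⊤ X] in
/-- a nonempty closed countable set has an isolated point -/
theorem exists_isolated [LocallyCompactSpace X] {A : Set X} (hA : IsClosed A) (hc : A.Countable)
    (hne : A.Nonempty) : ∃ p ∈ A, IsClosed (A \ {p}) := by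
  have : LocallyCompactSpace A := hA.locallyCompactSpace
  have : Countable A := hc
  have : Nonempty A := hne.to_subtype
  obtain ⟨p, hp⟩ := nonempty_interior_of_iUnion_of_closed (X := A) (f := fun a : A => {a})
    (fun a => isClosed_singleton) (by ext a; simp)
  have h1 : IsOpen ({p} : Set A) := by
    have h2 : interior ({p} : Set A) = {p} := by
      apply Subset.antisymm interior_subset
      obtain ⟨q, hq⟩ := hp
      have h3 := interior_subset hq
      rw [mem_singleton_iff] at h3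
      rw [h3] at hq
      rintro _ rfl
      exact hq
    rw [← h2]
    exact isOpen_interior
  obtain ⟨W, hW, hWp⟩ := isOpen_induced_iff.1 h1
  refine ⟨p, p.2, ?_⟩
  have h4 : A \ {(p : X)} = A ∩ Wᶜ := by
    ext x
    constructor
    · rintro ⟨hx, hxp⟩
      refine ⟨hx, fun hxW => hxp ?_⟩
      have h5 : (⟨x, hx⟩ : A) ∈ (Subtype.val ⁻¹' W : Set A) := hxW
      rw [hWp, mem_singleton_iff] at h5
      rw [← h5]
      rfl
    · rintro ⟨hx, hxW⟩
      refine ⟨hx, fun hxp => hxW ?_⟩
      have h6 : p ∈ (Subtype.val ⁻¹' W : Set A) := by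
        rw [hWp]
        rfl
      rw [mem_singleton_iff] at hxp
      rw [hxp]
      exact h6
  rw [h4]
  exact hA.inter hW.isClosed_compl

/-- closed countable sets -/
theorem remove_countable {D : Set X} (hD : IsClosed D) (hc : D.Countable) (h : Avoid m X D) :
    Avoid m X ∅ := by
  have hz : ∃ A, Minimal (· ∈ {A : Set X | IsClosed A ∧ A ⊆ D ∧ Avoid m X A}) A := by
    apply zorn_superset
    intro c hcS hchain
    rcases c.eq_empty_or_nonempty with hce | hcne
    · exact ⟨D, ⟨hD, Subset.rfl, h⟩, by simp [hce]⟩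
    refine ⟨⋂₀ c, ⟨isClosed_sInter fun A hA => (hcS hA).1, ?_, ?_⟩, fun A hA => sInter_subset_of_mem hA⟩
    · obtain ⟨A, hA⟩ := hcne
      exact (sInter_subset_of_mem hA).trans (hcS hA).2.1
    · intro n K U hKne hK hKc hU hKU f hf hfA O hO hKO
      have hfc : ContinuousOn f U := hf.continuousOn
      have hfK : IsCompact (f '' K) := hK.image_of_continuousOn (hfc.mono hKU)
      have hex : ∃ A ∈ c, f '' K ∩ A = ∅ := by
        by_contra hcon
        push Not at hcon
        have : Nonempty c := hcne.to_subtype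
        have h1 : (⋂ A : c, (f '' K ∩ (A : Set X))).Nonempty := by
          apply IsCompact.nonempty_iInter_of_directed_nonempty_isCompact_isClosed
          · intro A B
            rcases hchain.total A.2 B.2 with hAB | hBA
            · exact ⟨A, Subset.rfl, inter_subset_inter_right _ hAB⟩
            · exact ⟨B, inter_subset_inter_right _ hBA, Subset.rfl⟩
          · intro A
            exact hcon A A.2
          · intro A
            exact hfK.inter_right (hcS A.2).1
          · intro A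
            exact hfK.isClosed.inter (hcS A.2).1
        obtain ⟨y, hy⟩ := h1
        rw [mem_iInter] at hy
        obtain ⟨A₀, hA₀⟩ := hcne
        obtain ⟨x, hx, rfl⟩ := (hy ⟨A₀, hA₀⟩).1
        refine hfA x (hKU hx) ?_
        rw [mem_sInter]
        intro A hA
        exact (hy ⟨A, hA⟩).2
      obtain ⟨A, hAc, hA⟩ := hex
      have hU' : IsOpen (U ∩ f ⁻¹' Aᶜ) := hfc.isOpen_inter_preimage hU (hcS hAc).1.isOpen_compl
      have hKU' : K ⊆ U ∩ f ⁻¹' Aᶜ := by
        intro x hx
        refine ⟨hKU hx, fun hxA => ?_⟩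
        have : f x ∈ f '' K ∩ A := ⟨mem_image_of_mem f hx, hxA⟩
        rw [hA] at this
        exact this
      obtain ⟨g, hg, hgA, hgO⟩ := (hcS hAc).2.2 n K _ hKne hK hKc hU' hKU' f
        (hf.mono inter_subset_left) (fun x hx => hx.2) O hO hKO
      exact ⟨g, hg, fun x hx => hgA x (sInter_subset_of_mem hAc hx), hgO⟩
  obtain ⟨A, hA⟩ := hz
  obtain ⟨hAc, hAD, hAA⟩ := hA.prop
  rcases A.eq_empty_or_nonempty with hAe | hAne
  · rwa [hAe] at hAA
  · exfalso
    have hlc : LocallyCompactSpace X :=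
      Manifold.locallyCompact_of_finiteDimensional 𝓘(ℂ, Fin m → ℂ)
    obtain ⟨p, hp, hcl⟩ := exists_isolated hAc (hc.mono hAD) hAne
    have h1 : Avoid m X (A \ {p} ∪ {p}) := by
      rw [sdiff_union_self, union_eq_self_of_subset_right (singleton_subset_iff.2 hp)]
      exact hAA
    have h2 : Avoid m X (A \ {p}) := add_point hcl (by simp) h1
    have h3 : A ⊆ A \ {p} := hA.le_of_le ⟨hcl, sdiff_subset.trans hAD, h2⟩ sdiff_subset
    exact (h3 hp).2 rfl

end step

/-- **Removing a closed countable set.** Let `X` be a complex manifold and `D ⊆ X` closed and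
countable (for example one point). If the open submanifold `X \ D` is Oka, then `X` is Oka. -/
theorem result (m : ℕ) (X : Type) [TopologicalSpace X] [T2Space X] [SecondCountableTopology X]
    [ChartedSpace (Fin m → ℂ) X] [IsManifold 𝓘(ℂ, Fin m → ℂ) ⊤ X] (D : Set X)
    (hD : IsClosed D) (hc : D.Countable)
    (h : IsOka m (⟨Dᶜ, hD.isOpen_compl⟩ : Opens X)) : IsOka m X := by
  have h1 : Avoid m (⟨Dᶜ, hD.isOpen_compl⟩ : Opens X) (∅ : Set (⟨Dᶜ, hD.isOpen_compl⟩ : Opens X)) :=
    avoid_of_isOka h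
  have h2 := avoid_of_sub _ _ h1
  have h3 : Avoid m X D := by
    have e : ((⟨Dᶜ, hD.isOpen_compl⟩ : Opens X) : Set X)ᶜ ∪
        Subtype.val '' (∅ : Set (⟨Dᶜ, hD.isOpen_compl⟩ : Opens X)) = D := by
      rw [image_empty, union_empty]
      exact compl_compl D
    rwa [e] at h2
  exact isOka_of_avoid (remove_countable hD hc h3)

end Pool.Agent.Results.MP_ceb9a9_an.CountableRemoval
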